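import Mathlib

set_option autoImplicit false

namespace Pool.Agent.N242.CS

open MeasureTheory Set Filter Complex
open scoped ENNReal Topology

noncomputable abbrev H := Lp ℂ 2 (volume : Measure ℝ)

/-- identity on the negative axis, weighted translation to the right on the positive axis -/
noncomputable def sh (t : ℝ) (f : ℝ → ℂ) (s : ℝ) : ℂ :=
  if s ≤ 0 then f s else if t < s then ((Real.sqrt ((s - t) / s) : ℝ) : ℂ) * f (s - t) else 0

lemma eLp_sq (f : ℝ → ℂ) : eLpNorm f 2 volume ^ 2 = ∫⁻ s, ‖f s‖ₑ ^ 2 := by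
  have h := eLpNorm_nnreal_pow_eq_lintegral (f := f) (μ := (volume : Measure ℝ)) (p := 2)
    (by norm_num)
  simpa using h

lemma sh_meas {t : ℝ} {f : ℝ → ℂ} (hf : StronglyMeasurable f) : StronglyMeasurable (sh t f) := by
  unfold sh
  refine StronglyMeasurable.ite measurableSet_Iic hf (StronglyMeasurable.ite measurableSet_Ioi ?_
    stronglyMeasurable_const)
  refine StronglyMeasurable.mul ?_ ?_
  · refine Measurable.stronglyMeasurable ?_
    fun_prop
  · exact hf.comp_measurable (by fun_prop)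

lemma sh_le {t : ℝ} (ht : 0 ≤ t) (f : ℝ → ℂ) (s : ℝ) :
    ‖sh t f s‖ₑ ^ 2 ≤ (Iic (0 : ℝ)).indicator (fun u => ‖f u‖ₑ ^ 2) s +
      (Ioi (0 : ℝ)).indicator (fun u => ‖f u‖ₑ ^ 2) (s - t) := by
  unfold sh
  split_ifs with h1 h2
  · rw [indicator_of_mem (show s ∈ Iic (0 : ℝ) from h1)]
    exact le_self_add
  · rw [indicator_of_mem (show s - t ∈ Ioi (0 : ℝ) from sub_pos.2 h2)]
    refine le_trans ?_ le_add_self
    gcongr
    rw [enorm_mul]
    refine le_trans (mul_le_mul_left ?_ _) (one_mul _).le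
    push Not at h1
    rw [← ofReal_norm, Complex.norm_real, Real.norm_eq_abs,
      abs_of_nonneg (Real.sqrt_nonneg _)]
    rw [← ENNReal.ofReal_one]
    apply ENNReal.ofReal_le_ofReal
    refine Real.sqrt_le_one.2 ?_
    rw [div_le_one h1]
    linarith
  · simp

lemma sh_lint {t : ℝ} (ht : 0 ≤ t) {f : ℝ → ℂ} (hf : StronglyMeasurable f) :
    ∫⁻ s, ‖sh t f s‖ₑ ^ 2 ≤ ∫⁻ s, ‖f s‖ₑ ^ 2 := by
  have hm : Measurable fun u => ‖f u‖ₑ ^ 2 := (hf.measurable.enorm).pow_const 2
  calc ∫⁻ s, ‖sh t f s‖ₑ ^ 2 ≤ ∫⁻ s, ((Iic (0 : ℝ)).indicator (fun u => ‖f u‖ₑ ^ 2) s +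
      (Ioi (0 : ℝ)).indicator (fun u => ‖f u‖ₑ ^ 2) (s - t)) := lintegral_mono (sh_le ht f)
    _ = (∫⁻ s, (Iic (0 : ℝ)).indicator (fun u => ‖f u‖ₑ ^ 2) s) +
      ∫⁻ s, (Ioi (0 : ℝ)).indicator (fun u => ‖f u‖ₑ ^ 2) (s - t) := by
        rw [lintegral_add_left (hm.indicator measurableSet_Iic)]
    _ = (∫⁻ s, (Iic (0 : ℝ)).indicator (fun u => ‖f u‖ₑ ^ 2) s) +
      ∫⁻ s, (Ioi (0 : ℝ)).indicator (fun u => ‖f u‖ₑ ^ 2) s := by
        rw [lintegral_sub_right_eq_self (fun s => (Ioi (0 : ℝ)).indicator (fun u => ‖f u‖ₑ ^ 2) s)]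
    _ = ∫⁻ s, ‖f s‖ₑ ^ 2 := by
        rw [lintegral_indicator measurableSet_Iic, lintegral_indicator measurableSet_Ioi]
        have : Ioi (0 : ℝ) = (Iic 0)ᶜ := by ext; simp
        rw [this]
        exact lintegral_add_compl _ measurableSet_Iic

lemma sh_congr {t : ℝ} {f g : ℝ → ℂ} (h : f =ᵐ[volume] g) : sh t f =ᵐ[volume] sh t g := by
  have h2 := (measurePreserving_sub_right (volume : Measure ℝ) t).quasiMeasurePreserving.ae_eq_comp h
  filter_upwards [h, h2] with s h1 h2
  unfold sh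
  simp only [Function.comp_apply] at h2
  rw [h1, h2]

lemma sh_eLp {t : ℝ} (ht : 0 ≤ t) {f : ℝ → ℂ} (hf : StronglyMeasurable f) :
    eLpNorm (sh t f) 2 volume ≤ eLpNorm f 2 volume := by
  have h := sh_lint ht hf
  rw [← eLp_sq, ← eLp_sq] at h
  exact (ENNReal.pow_le_pow_left_iff two_ne_zero).1 h

lemma sh_memLp {t : ℝ} (ht : 0 ≤ t) (f : H) : MemLp (sh t f) 2 volume :=
  ⟨(sh_meas (Lp.stronglyMeasurable f)).aestronglyMeasurable,
    (sh_eLp ht (Lp.stronglyMeasurable f)).trans_lt (Lp.memLp f).2⟩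

/-- the semigroup -/
noncomputable def T (t : ℝ) : H →L[ℂ] H :=
  LinearMap.mkContinuous
    { toFun := fun f => (sh_memLp (le_max_right t 0) f).toLp
      map_add' := by
        intro f g
        rw [← MemLp.toLp_add]
        apply MemLp.toLp_congr
        refine (sh_congr (Lp.coeFn_add f g)).trans ?_
        refine ae_of_all _ fun s => ?_
        simp only [sh, Pi.add_apply]
        split_ifs
        · rfl
        · ring
        · ring
      map_smul' := by
        intro c f
        simp only [RingHom.id_apply]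
        rw [← MemLp.toLp_const_smul]
        apply MemLp.toLp_congr
        refine (sh_congr (Lp.coeFn_smul c f)).trans ?_
        refine ae_of_all _ fun s => ?_
        simp only [sh, Pi.smul_apply, smul_eq_mul]
        split_ifs
        · rfl
        · ring
        · ring } 1 (by
      intro f
      rw [one_mul]
      simp only [LinearMap.coe_mk, AddHom.coe_mk]
      rw [Lp.norm_toLp, Lp.norm_def]
      exact ENNReal.toReal_mono (Lp.memLp f).2.ne
        (sh_eLp (le_max_right t 0) (Lp.stronglyMeasurable f)))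

lemma T_ae {t : ℝ} (ht : 0 ≤ t) (f : H) : T t f =ᵐ[volume] sh t f := by
  have : T t f = (sh_memLp (le_max_right t 0) f).toLp := rfl
  rw [this]
  refine (MemLp.coeFn_toLp _).trans ?_
  rw [max_eq_left ht]

lemma T_norm (t : ℝ) : ‖T t‖ ≤ 1 := LinearMap.mkContinuous_norm_le _ zero_le_one _

lemma T_zero : T 0 = ContinuousLinearMap.id ℂ H := by
  ext1 f
  apply Lp.ext
  refine (T_ae le_rfl f).trans (ae_of_all _ fun s => ?_)
  simp only [sh, ContinuousLinearMap.id_apply, sub_zero]
  split_ifs with h1 h2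
  · rfl
  · rw [div_self h2.ne']
    simp
  · exact absurd (not_le.1 h1) h2

lemma T_add {s t : ℝ} (hs : 0 ≤ s) (ht : 0 ≤ t) : T (s + t) = (T s).comp (T t) := by
  ext1 f
  apply Lp.ext
  refine (T_ae (add_nonneg hs ht) f).trans ?_
  rw [ContinuousLinearMap.comp_apply]
  refine EventuallyEq.trans ?_ (T_ae hs (T t f)).symm
  refine EventuallyEq.trans ?_ (sh_congr (T_ae ht f)).symm
  refine ae_of_all _ fun x => ?_
  simp only [sh]
  by_cases h0 : x ≤ 0
  · simp [h0]
  rw [if_neg h0, if_neg h0]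
  push Not at h0
  by_cases h1 : s < x
  · rw [if_pos h1]
    have h2 : ¬ (x - s ≤ 0) := by linarith
    rw [if_neg h2]
    by_cases h3 : s + t < x
    · rw [if_pos h3, if_pos (by linarith), ← mul_assoc, ← Complex.ofReal_mul,
        ← Real.sqrt_mul (by have : 0 < x - s := by linarith
                            positivity)]
      have h4 : (x - s) / x * ((x - s - t) / (x - s)) = (x - (s + t)) / x := by
        have : x - s ≠ 0 := by intro h; linarith
        field_simp
        ring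
      rw [h4]
      congr 2
      ring
    · rw [if_neg h3, if_neg (by linarith)]
      simp
  · rw [if_neg h1, if_neg (by linarith)]

end Pool.Agent.N242.CS
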