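import Pool.Agent.N242.CS.Basic

set_option autoImplicit false

namespace Pool.Agent.N242.CS

open MeasureTheory Set Filter Complex
open scoped ENNReal Topology

/-- translations as continuous maps -/
noncomputable def tr : C(ℝ, C(ℝ, ℝ)) :=
  (ContinuousMap.mk (fun p : ℝ × ℝ => p.2 - p.1) (by fun_prop)).curry

lemma tr_apply (t s : ℝ) : tr t s = s - t := rfl

lemma tr_mp (t : ℝ) : MeasurePreserving (tr t) (volume : Measure ℝ) volume :=
  measurePreserving_sub_right volume t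

/-- the translation operators -/
noncomputable def U (t : ℝ) (f : H) : H := Lp.compMeasurePreserving (tr t) (tr_mp t) f

lemma U_ae (t : ℝ) (f : H) : U t f =ᵐ[volume] fun s => f (s - t) :=
  Lp.coeFn_compMeasurePreserving f (tr_mp t)

lemma U_cont (f : H) : Continuous fun t => U t f :=
  Continuous.compMeasurePreservingLp continuous_const tr.continuous tr_mp (by norm_num)

lemma U_zero (f : H) : U 0 f = f := by
  apply Lp.ext
  refine (U_ae 0 f).trans (ae_of_all _ fun s => ?_)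
  simp

/-- the weight -/
noncomputable def ka (t s : ℝ) : ℝ := if s ≤ 0 then 1 else if t < s then Real.sqrt ((s - t) / s) else 0

lemma ka_bd {t : ℝ} (ht : 0 ≤ t) (s : ℝ) : 0 ≤ ka t s ∧ ka t s ≤ 1 := by
  unfold ka
  split_ifs with h1 h2
  · exact ⟨zero_le_one, le_rfl⟩
  · push Not at h1
    refine ⟨Real.sqrt_nonneg _, Real.sqrt_le_one.2 ?_⟩
    rw [div_le_one h1]
    linarith
  · exact ⟨le_rfl, zero_le_one⟩

lemma ka_meas (t : ℝ) : Measurable (ka t) := by
  unfold ka
  refine Measurable.ite measurableSet_Iic measurable_const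
    (Measurable.ite measurableSet_Ioi ?_ measurable_const)
  fun_prop

lemma ka_tendsto (s : ℝ) : Tendsto (fun t => ka t s) (𝓝[>] 0) (𝓝 1) := by
  by_cases h : s ≤ 0
  · simp [ka, h]
  · push Not at h
    have h1 : Tendsto (fun t : ℝ => Real.sqrt ((s - t) / s)) (𝓝[>] 0) (𝓝 1) := by
      have h2 : Tendsto (fun t : ℝ => Real.sqrt ((s - t) / s)) (𝓝 0)
          (𝓝 (Real.sqrt ((s - 0) / s))) := by
        apply Continuous.tendsto
        fun_prop
      rw [sub_zero, div_self h.ne', Real.sqrt_one] at h2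
      exact h2.mono_left nhdsWithin_le_nhds
    refine h1.congr' ?_
    have h3 : ∀ᶠ t in 𝓝[>] (0 : ℝ), t < s := nhdsWithin_le_nhds (Iio_mem_nhds h)
    filter_upwards [h3] with t ht
    simp [ka, not_le.2 h, ht]

/-- the remainder -/
noncomputable def rem (t : ℝ) (f : H) (s : ℝ) : ℂ := ((ka t s - 1 : ℝ) : ℂ) * f s

lemma rem_le {t : ℝ} (ht : 0 ≤ t) (f : H) (s : ℝ) : ‖rem t f s‖ₑ ^ 2 ≤ ‖f s‖ₑ ^ 2 := by
  unfold rem
  gcongr
  rw [enorm_mul]
  refine le_trans (mul_le_mul_left ?_ _) (one_mul _).le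
  rw [← ofReal_norm, Complex.norm_real, Real.norm_eq_abs, ← ENNReal.ofReal_one]
  apply ENNReal.ofReal_le_ofReal
  have := ka_bd ht s
  rw [abs_le]
  constructor <;> linarith

lemma fin_sq (f : H) : ∫⁻ s, ‖f s‖ₑ ^ 2 ≠ ∞ := by
  rw [← eLp_sq]
  exact ENNReal.pow_ne_top (Lp.memLp f).2.ne

lemma rem_tendsto (f : H) : Tendsto (fun t => ∫⁻ s, ‖rem t f s‖ₑ ^ 2) (𝓝[>] 0) (𝓝 0) := by
  have h := tendsto_lintegral_filter_of_dominated_convergence (μ := (volume : Measure ℝ))
    (l := 𝓝[>] (0 : ℝ)) (F := fun t s => ‖rem t f s‖ₑ ^ 2) (f := fun _ => 0)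
    (fun s => ‖f s‖ₑ ^ 2) ?_ ?_ (fin_sq f) ?_
  · simpa using h
  · refine Eventually.of_forall fun t => ?_
    refine Measurable.pow_const (Measurable.enorm ?_) 2
    unfold rem
    exact (Complex.measurable_ofReal.comp ((ka_meas t).sub_const 1)).mul
      (Lp.stronglyMeasurable f).measurable
  · filter_upwards [self_mem_nhdsWithin] with t ht
    exact ae_of_all _ fun s => rem_le (le_of_lt ht) f s
  · refine ae_of_all _ fun s => ?_
    have h1 : Tendsto (fun t => rem t f s) (𝓝[>] 0) (𝓝 0) := by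
      unfold rem
      have h2 := ((ka_tendsto s).sub_const 1)
      rw [sub_self] at h2
      have h3 := (Complex.continuous_ofReal.tendsto 0).comp h2
      rw [Complex.ofReal_zero] at h3
      have h4 := h3.mul_const (f s)
      rw [zero_mul] at h4
      exact h4
    have h5 := (ENNReal.continuous_pow 2).tendsto 0
    have h6 := (continuous_enorm.tendsto (0 : ℂ)).comp h1
    rw [enorm_zero] at h6
    have h7 : Tendsto (fun n => ‖rem n f s‖ₑ ^ 2) (𝓝[>] 0) (𝓝 ((0 : ℝ≥0∞) ^ 2)) := h5.comp h6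
    rw [zero_pow two_ne_zero] at h7
    exact h7

lemma T_sub_ae {t : ℝ} (ht : 0 ≤ t) (f : H) : (T t f - f : H) =ᵐ[volume]
    fun s => (if s ≤ 0 then 0 else ((ka t s : ℝ) : ℂ) * (U t f - f : H) s) + rem t f s := by
  filter_upwards [Lp.coeFn_sub (T t f) f, T_ae ht f, Lp.coeFn_sub (U t f) f, U_ae t f]
    with s h1 h2 h3 h4
  rw [h1, Pi.sub_apply, h2, h3, Pi.sub_apply, h4]
  unfold sh rem ka
  split_ifs with h5 h6
  · simp
  · push_cast
    ring
  · push_cast
    ring

lemma T_sub_le {t : ℝ} (ht : 0 ≤ t) (f : H) :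
    ‖T t f - f‖ₑ ≤ ‖U t f - f‖ₑ + (∫⁻ s, ‖rem t f s‖ₑ ^ 2) ^ (1 / 2 : ℝ) := by
  have e1 : ‖T t f - f‖ₑ = eLpNorm (T t f - f : H) 2 volume := by
    rw [Lp.enorm_def]
  have e2 : ‖U t f - f‖ₑ = eLpNorm (U t f - f : H) 2 volume := by
    rw [Lp.enorm_def]
  have mr : Measurable (rem t f) := by
    unfold rem
    exact (Complex.measurable_ofReal.comp ((ka_meas t).sub_const 1)).mul
      (Lp.stronglyMeasurable f).measurable
  have e3 : eLpNorm (rem t f) 2 volume = (∫⁻ s, ‖rem t f s‖ₑ ^ 2) ^ (1 / 2 : ℝ) := by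
    rw [← eLp_sq, ← ENNReal.rpow_natCast, ← ENNReal.rpow_mul]
    norm_num
  rw [e1, e2, ← e3, eLpNorm_congr_ae (T_sub_ae ht f)]
  have m1 : Measurable fun s => (if s ≤ 0 then 0 else ((ka t s : ℝ) : ℂ) * (U t f - f : H) s) := by
    refine Measurable.ite measurableSet_Iic measurable_const ?_
    exact (Complex.measurable_ofReal.comp (ka_meas t)).mul (Lp.stronglyMeasurable _).measurable
  refine le_trans (eLpNorm_add_le m1.aestronglyMeasurable mr.aestronglyMeasurable (by norm_num)) ?_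
  gcongr
  apply eLpNorm_mono
  intro s
  split_ifs
  · rw [norm_zero]
    exact norm_nonneg _
  · rw [norm_mul, Complex.norm_real, Real.norm_eq_abs, abs_of_nonneg (ka_bd ht s).1]
    exact mul_le_of_le_one_left (norm_nonneg _) (ka_bd ht s).2

lemma T_tendsto (f : H) : Tendsto (fun t => T t f) (𝓝[>] 0) (𝓝 f) := by
  rw [tendsto_iff_edist_tendsto_0]
  have h1 : Tendsto (fun t => ‖U t f - f‖ₑ) (𝓝[>] 0) (𝓝 0) := by
    have := ((U_cont f).sub continuous_const).enorm.tendsto (0 : ℝ) (f := fun t => ‖U t f - f‖ₑ)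
    rw [U_zero, sub_self, enorm_zero] at this
    exact this.mono_left nhdsWithin_le_nhds
  have h2 : Tendsto (fun t => (∫⁻ s, ‖rem t f s‖ₑ ^ 2) ^ (1 / 2 : ℝ)) (𝓝[>] 0) (𝓝 0) := by
    have h := (ENNReal.continuous_rpow_const (y := (1 / 2 : ℝ))).tendsto 0
    rw [ENNReal.zero_rpow_of_pos (by norm_num)] at h
    exact h.comp (rem_tendsto f)
  have h3 := h1.add h2
  rw [add_zero] at h3
  refine tendsto_of_tendsto_of_tendsto_of_le_of_le' tendsto_const_nhds h3
    (Eventually.of_forall fun _ => zero_le) ?_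
  filter_upwards [self_mem_nhdsWithin] with t ht
  rw [edist_eq_enorm_sub]
  exact T_sub_le (le_of_lt ht) f

lemma T_sub_sub {a b : ℝ} (ha : 0 ≤ a) (hb : 0 ≤ b) (f : H) :
    ‖T a f - T b f‖ ≤ ‖T |a - b| f - f‖ := by
  wlog hab : b ≤ a generalizing a b
  · rw [norm_sub_rev, abs_sub_comm]
    exact this hb ha (not_le.1 hab).le
  have h1 : a = b + (a - b) := by ring
  have h2 : T a f = T b (T (a - b) f) := by
    conv_lhs => rw [h1]
    rw [T_add hb (sub_nonneg.2 hab)]
    rfl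
  rw [h2, ← map_sub, abs_of_nonneg (sub_nonneg.2 hab)]
  refine le_trans ((T b).le_opNorm _) ?_
  exact mul_le_of_le_one_left (norm_nonneg _) (T_norm b)

lemma T_cont (f : H) : ContinuousOn (fun t : ℝ => T t f) (Ici 0) := by
  intro b hb
  have hb0 : 0 ≤ b := hb
  rw [ContinuousWithinAt, tendsto_iff_norm_sub_tendsto_zero]
  have h0 : Tendsto (fun t => ‖T t f - f‖) (𝓝[≥] 0) (𝓝 0) := by
    have h1 : Tendsto (fun t => ‖T t f - f‖) (𝓝[>] 0) (𝓝 0) :=
      tendsto_iff_norm_sub_tendsto_zero.1 (T_tendsto f)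
    have h2 : 𝓝[≥] (0 : ℝ) = 𝓝[>] 0 ⊔ pure 0 := by
      rw [← Ioi_insert, nhdsWithin_insert, sup_comm]
    rw [h2]
    refine h1.sup ?_
    rw [tendsto_pure_left]
    intro s hs
    rw [T_zero]
    simpa using mem_of_mem_nhds hs
  have h1 : Tendsto (fun a => |a - b|) (𝓝[Ici 0] b) (𝓝[≥] 0) := by
    apply tendsto_nhdsWithin_of_tendsto_nhds_of_eventually_within
    · have : Tendsto (fun a : ℝ => |a - b|) (𝓝 b) (𝓝 |b - b|) := by
        apply Continuous.tendsto
        fun_prop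
      rw [sub_self, abs_zero] at this
      exact this.mono_left nhdsWithin_le_nhds
    · exact Eventually.of_forall fun a => mem_Ici.2 (abs_nonneg (a - b))
  refine squeeze_zero' (Eventually.of_forall fun _ => norm_nonneg _) ?_ (h0.comp h1)
  filter_upwards [self_mem_nhdsWithin] with a ha
  exact T_sub_sub ha hb0 f

end Pool.Agent.N242.CS
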