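import Pool.Agent.N242.CS.Ineq

set_option autoImplicit false

namespace Pool.Agent.N242.CS

open MeasureTheory Set Filter Complex
open scoped ENNReal Topology

/-- `|G(s)|^2` -/
noncomputable def Q (y : H) (s : ℝ) : ℝ := A y s ^ 2 + B y s ^ 2

lemma Q_nonneg (y : H) (s : ℝ) : 0 ≤ Q y s := by unfold Q; positivity

lemma Q_eq (y : H) {s : ℝ} (hs : 0 ≤ s) :
    Q y s = ‖∫ u in (0 : ℝ)..s, ((Real.sqrt u : ℝ) : ℂ) * y u‖ ^ 2 := by
  rw [AB_eq y hs, ← Complex.normSq_eq_norm_sq, Complex.normSq_apply]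
  simp [Q]
  ring

/-- small near zero -/
lemma sqrtQ_le (y : H) {s η : ℝ} (hs : 0 < s) (hη : 0 < η) :
    Real.sqrt (Q y s) ≤ s * (η / 4 + (∫ u in (0 : ℝ)..s, ‖y u‖ ^ 2) / (2 * η)) := by
  rw [Q_eq y hs.le, Real.sqrt_sq (norm_nonneg _)]
  refine le_trans (intervalIntegral.norm_integral_le_integral_norm hs.le) ?_
  have h1 : ∫ u in (0 : ℝ)..s, ‖((Real.sqrt u : ℝ) : ℂ) * y u‖ ≤
      ∫ u in (0 : ℝ)..s, (η / (2 * s) * u + (s / (2 * η)) * ‖y u‖ ^ 2) := by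
    apply intervalIntegral.integral_mono_on hs.le
    · exact (int_q y le_rfl hs.le).norm
    · apply IntervalIntegrable.add
      · exact (continuous_const.mul continuous_id).intervalIntegrable _ _
      · exact ((int_sq y).intervalIntegrable).const_mul _
    · intro u hu
      rw [norm_mul, Complex.norm_real, Real.norm_eq_abs, abs_of_nonneg (Real.sqrt_nonneg _)]
      set a := Real.sqrt u
      have ha : a * a = u := Real.mul_self_sqrt hu.1
      have key : 0 ≤ (η * a - s * ‖y u‖) ^ 2 := sq_nonneg _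
      have : η / (2 * s) * (a * a) + s / (2 * η) * ‖y u‖ ^ 2 - a * ‖y u‖ =
          (η * a - s * ‖y u‖) ^ 2 / (2 * s * η) := by
        field_simp
        ring
      have h2 : 0 ≤ (η * a - s * ‖y u‖) ^ 2 / (2 * s * η) := by positivity
      rw [ha] at this
      linarith
  refine h1.trans (le_of_eq ?_)
  rw [intervalIntegral.integral_add]
  · rw [intervalIntegral.integral_const_mul, intervalIntegral.integral_const_mul, integral_id]
    field_simp
    ring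
  · exact (continuous_const.mul continuous_id).intervalIntegrable _ _
  · exact ((int_sq y).intervalIntegrable).const_mul _

lemma prim_cont (x : H) (M : ℝ) : Continuous fun e => ∫ s in e..M, ‖x s‖ ^ 2 := by
  have h := intervalIntegral.continuous_primitive (μ := (volume : Measure ℝ))
    (f := fun s => ‖x s‖ ^ 2) (fun a b => (int_sq x).intervalIntegrable) M
  have h2 : (fun e => ∫ s in e..M, ‖x s‖ ^ 2) = fun e => -∫ s in M..e, ‖x s‖ ^ 2 := by
    ext e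
    rw [intervalIntegral.integral_symm]
  rw [h2]
  exact h.neg

lemma Q_small (y : H) : Tendsto (fun e => Q y e / e ^ 2) (𝓝[>] 0) (𝓝 0) := by
  have h0 : Tendsto (fun e => Real.sqrt (Q y e) / e) (𝓝[>] 0) (𝓝 0) := by
    rw [Metric.tendsto_nhds]
    intro δ hδ
    have hc : Tendsto (fun e => ∫ u in (0 : ℝ)..e, ‖y u‖ ^ 2) (𝓝[>] 0) (𝓝 0) := by
      have h := intervalIntegral.continuous_primitive (μ := (volume : Measure ℝ))
        (f := fun s => ‖y s‖ ^ 2) (fun a b => (int_sq y).intervalIntegrable) 0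
      have h2 := h.tendsto 0
      simp only [intervalIntegral.integral_same] at h2
      exact h2.mono_left nhdsWithin_le_nhds
    have h3 : ∀ᶠ e in 𝓝[>] (0 : ℝ), ∫ u in (0 : ℝ)..e, ‖y u‖ ^ 2 < δ ^ 2 :=
      hc.eventually (gt_mem_nhds (by positivity))
    filter_upwards [h3, self_mem_nhdsWithin] with e he he0
    have he1 : 0 < e := he0
    have h4 := sqrtQ_le y he1 hδ
    rw [dist_zero_right, Real.norm_eq_abs, abs_of_nonneg (by positivity), div_lt_iff₀ he1]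
    refine h4.trans_lt ?_
    have h5 : (∫ u in (0 : ℝ)..e, ‖y u‖ ^ 2) / (2 * δ) < δ ^ 2 / (2 * δ) := by
      gcongr
    have h6 : δ ^ 2 / (2 * δ) = δ / 2 := by
      field_simp
    rw [h6] at h5
    nlinarith
  have h1 := h0.pow 2
  rw [zero_pow two_ne_zero] at h1
  refine h1.congr fun e => ?_
  rw [div_pow, Real.sq_sqrt (Q_nonneg y e)]

variable {x y : H}

lemma claim1 (hg : Gr x y) (μ : ℂ) {M : ℝ} (hM : 0 < M) :
    -(|μ.re| * (Q y M / M)) + (3 / 4) * μ.re ^ 2 * ∫ s in (0 : ℝ)..M, ‖x s‖ ^ 2 ≤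
      ∫ s in (0 : ℝ)..M, ‖(μ • x - y : H) s‖ ^ 2 := by
  have h1 : Tendsto (fun e => -(|μ.re| * (Q y M / M)) +
      (3 / 4) * μ.re ^ 2 * ∫ s in e..M, ‖x s‖ ^ 2) (𝓝[>] 0) (𝓝 (-(|μ.re| * (Q y M / M)) +
      (3 / 4) * μ.re ^ 2 * ∫ s in (0 : ℝ)..M, ‖x s‖ ^ 2)) :=
    ((((prim_cont x M).const_smul ((3 / 4) * μ.re ^ 2)).const_add
      (-(|μ.re| * (Q y M / M)))).tendsto 0 |>.mono_left nhdsWithin_le_nhds)
  have h2 : Tendsto (fun e => (∫ s in e..M, ‖(μ • x - y : H) s‖ ^ 2) + (1 + |μ.re| * e) * (Q y e / e ^ 2))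
      (𝓝[>] 0) (𝓝 ((∫ s in (0 : ℝ)..M, ‖(μ • x - y : H) s‖ ^ 2) + (1 + |μ.re| * 0) * 0)) := by
    refine Tendsto.add (((prim_cont (μ • x - y) M).tendsto 0).mono_left nhdsWithin_le_nhds)
      (Tendsto.mul ?_ (Q_small y))
    refine Tendsto.mono_left ?_ nhdsWithin_le_nhds
    apply Continuous.tendsto
    fun_prop
  rw [mul_zero, add_zero] at h2
  refine le_of_tendsto_of_tendsto h1 h2 ?_
  have h3 : ∀ᶠ e in 𝓝[>] (0 : ℝ), e < M := nhdsWithin_le_nhds (Iio_mem_nhds hM)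
  filter_upwards [h3, self_mem_nhdsWithin] with e he he0
  have he1 : 0 < e := he0
  have hc := core hg μ he1 he.le
  have p1 : -(|μ.re| * (Q y M / M)) ≤ P (-μ.re) y M := by
    have : P (-μ.re) y M = Q y M / M ^ 2 + μ.re * (Q y M / M) := by
      unfold P Q
      field_simp
      ring
    rw [this]
    have q0 : 0 ≤ Q y M / M ^ 2 := div_nonneg (Q_nonneg y M) (by positivity)
    have q2 : 0 ≤ Q y M / M := div_nonneg (Q_nonneg y M) hM.le
    have := neg_abs_le μ.re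
    nlinarith
  have p2 : P (-μ.re) y e ≤ (1 + |μ.re| * e) * (Q y e / e ^ 2) := by
    have : P (-μ.re) y e = (1 + μ.re * e) * (Q y e / e ^ 2) := by
      unfold P Q
      field_simp
      ring
    rw [this]
    have q0 : 0 ≤ Q y e / e ^ 2 := div_nonneg (Q_nonneg y e) (by positivity)
    have := le_abs_self μ.re
    gcongr
  linarith

lemma Q_x (hg : Gr x y) : ∀ᵐ s : ℝ, 0 < s → Q y s / s = ‖x s‖ ^ 2 := by
  filter_upwards [gr_pos hg] with s h hs
  rw [Q_eq y hs.le, ← norm_neg, ← h hs, norm_mul, Complex.norm_real, Real.norm_eq_abs,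
    abs_of_nonneg (Real.sqrt_nonneg _), mul_pow, Real.sq_sqrt hs.le]
  field_simp

lemma exists_M (hg : Gr x y) (N δ : ℝ) (hN : 0 < N) (hδ : 0 < δ) : ∃ M, N ≤ M ∧ Q y M / M < δ := by
  by_contra hcon
  push Not at hcon
  have h1 : ∫⁻ s in Ioi N, ENNReal.ofReal δ ≤ ∫⁻ s in Ioi N, ‖x s‖ₑ ^ 2 := by
    rw [← lintegral_indicator measurableSet_Ioi, ← lintegral_indicator measurableSet_Ioi]
    apply lintegral_mono_ae
    filter_upwards [Q_x hg] with s hs
    by_cases hm : s ∈ Ioi N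
    · rw [indicator_of_mem hm, indicator_of_mem hm]
      have hs0 : 0 < s := hN.trans hm
      have h2 := hcon s (le_of_lt hm)
      rw [hs hs0] at h2
      rw [← ofReal_norm, ← ENNReal.ofReal_pow (norm_nonneg _)]
      exact ENNReal.ofReal_le_ofReal h2
    · rw [indicator_of_notMem hm, indicator_of_notMem hm]
  rw [setLIntegral_const, Real.volume_Ioi, ENNReal.mul_top (by simpa using hδ)] at h1
  have h2 : ∫⁻ s in Ioi N, ‖x s‖ₑ ^ 2 ≠ ∞ :=
    ((setLIntegral_le_lintegral _ _).trans_lt (lt_top_iff_ne_top.2 (fin_sq x))).ne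
  exact h2 (top_le_iff.1 h1)

lemma claim2 (hg : Gr x y) (μ : ℂ) {N : ℝ} (hN : 0 < N) :
    (3 / 4) * μ.re ^ 2 * ∫ s in (0 : ℝ)..N, ‖x s‖ ^ 2 ≤
      ∫ s in Ioi (0 : ℝ), ‖(μ • x - y : H) s‖ ^ 2 := by
  apply le_of_forall_pos_le_add
  intro δ hδ
  obtain ⟨M, hNM, hM⟩ := exists_M hg N (δ / (|μ.re| + 1)) hN (by positivity)
  have hM0 : 0 < M := hN.trans_le hNM
  have h1 := claim1 hg μ hM0
  have h2 : ∫ s in (0 : ℝ)..N, ‖x s‖ ^ 2 ≤ ∫ s in (0 : ℝ)..M, ‖x s‖ ^ 2 := by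
    apply intervalIntegral.integral_mono_interval le_rfl hN.le hNM
    · exact ae_of_all _ fun s => by positivity
    · exact (int_sq x).intervalIntegrable
  have h3 : ∫ s in (0 : ℝ)..M, ‖(μ • x - y : H) s‖ ^ 2 ≤
      ∫ s in Ioi (0 : ℝ), ‖(μ • x - y : H) s‖ ^ 2 := by
    rw [intervalIntegral.integral_of_le hM0.le]
    apply setIntegral_mono_set (int_sq _).integrableOn
    · exact ae_of_all _ fun s => by positivity
    · exact (Ioc_subset_Ioi_self).eventuallyLE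
  have h4 : |μ.re| * (Q y M / M) ≤ δ := by
    have h5 : |μ.re| * (Q y M / M) ≤ |μ.re| * (δ / (|μ.re| + 1)) := by
      gcongr
    refine h5.trans ?_
    rw [mul_div_assoc', div_le_iff₀ (by positivity)]
    nlinarith [abs_nonneg μ.re]
  have h6 : (3 / 4) * μ.re ^ 2 * ∫ s in (0 : ℝ)..N, ‖x s‖ ^ 2 ≤
      (3 / 4) * μ.re ^ 2 * ∫ s in (0 : ℝ)..M, ‖x s‖ ^ 2 := by
    gcongr
  linarith

lemma claim3 (hg : Gr x y) (μ : ℂ) :
    (3 / 4) * μ.re ^ 2 * ∫ s in Ioi (0 : ℝ), ‖x s‖ ^ 2 ≤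
      ∫ s in Ioi (0 : ℝ), ‖(μ • x - y : H) s‖ ^ 2 := by
  have h1 : Tendsto (fun N : ℝ => (3 / 4) * μ.re ^ 2 * ∫ s in (0 : ℝ)..N, ‖x s‖ ^ 2) atTop
      (𝓝 ((3 / 4) * μ.re ^ 2 * ∫ s in Ioi (0 : ℝ), ‖x s‖ ^ 2)) :=
    (intervalIntegral_tendsto_integral_Ioi 0 (int_sq x).integrableOn tendsto_id).const_mul _
  refine le_of_tendsto h1 ?_
  filter_upwards [eventually_gt_atTop 0] with N hN
  exact claim2 hg μ hN

lemma main_ineq (hg : Gr x y) (μ : ℂ) : (3 / 4) * μ.re ^ 2 * ‖x‖ ^ 2 ≤ ‖μ • x - y‖ ^ 2 := by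
  rw [normsq, normsq, ← integral_add_compl measurableSet_Ioi (int_sq x) (s := Ioi 0),
    ← integral_add_compl measurableSet_Ioi (int_sq (μ • x - y)) (s := Ioi 0), mul_add]
  refine add_le_add (claim3 hg μ) ?_
  rw [← integral_const_mul]
  apply integral_mono_ae
  · exact ((int_sq x).const_mul _).integrableOn
  · exact (int_sq _).integrableOn
  · rw [EventuallyLE, ae_restrict_iff' measurableSet_Ioi.compl]
    filter_upwards [gr_neg hg, Lp.coeFn_sub (μ • x) y, Lp.coeFn_smul μ x] with s h1 h2 h3 hs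
    have hs0 : s ≤ 0 := by simpa using hs
    rw [h2, Pi.sub_apply, h3, Pi.smul_apply, h1 hs0, sub_zero, norm_smul, mul_pow]
    have : μ.re ^ 2 ≤ ‖μ‖ ^ 2 := by
      rw [← sq_abs]
      have := Complex.abs_re_le_norm μ
      gcongr
    have h4 : 0 ≤ ‖x s‖ ^ 2 := by positivity
    nlinarith [sq_nonneg μ.re]

lemma lower (hg : Gr x y) (μ : ℂ) : (1 / 2 : ℝ) * |μ.re| * ‖x‖ ≤ ‖μ • x - y‖ := by
  have h := main_ineq hg μ
  refine abs_le_of_sq_le_sq' ?_ (norm_nonneg _) |>.2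
  have : (1 / 2 * |μ.re| * ‖x‖) ^ 2 = 1 / 4 * μ.re ^ 2 * ‖x‖ ^ 2 := by
    rw [mul_pow, mul_pow, sq_abs]
    ring
  rw [this]
  have h4 : 0 ≤ μ.re ^ 2 * ‖x‖ ^ 2 := by positivity
  nlinarith

end Pool.Agent.N242.CS
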