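import Pool.Agent.N242.CS.Cont

set_option autoImplicit false

namespace Pool.Agent.N242.CS

open MeasureTheory Set Filter Complex
open scoped ENNReal Topology

/-- test functions -/
noncomputable def ps (s : ℝ) : ℝ → ℂ :=
  (Ioc (0 : ℝ) s).indicator (fun u => ((Real.sqrt u : ℝ) : ℂ))

lemma ps_memLp (s : ℝ) : MemLp (ps s) 2 volume := by
  unfold ps
  rw [memLp_indicator_iff_restrict measurableSet_Ioc]
  have : IsFiniteMeasure ((volume : Measure ℝ).restrict (Ioc 0 s)) :=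
    ⟨by rw [Measure.restrict_apply_univ, Real.volume_Ioc]; exact ENNReal.ofReal_lt_top⟩
  refine MemLp.of_bound ?_ (Real.sqrt s) ?_
  · exact (Complex.measurable_ofReal.comp Real.continuous_sqrt.measurable).aestronglyMeasurable
  · rw [ae_restrict_iff' measurableSet_Ioc]
    refine ae_of_all _ fun u hu => ?_
    rw [Complex.norm_real, Real.norm_eq_abs, abs_of_nonneg (Real.sqrt_nonneg _)]
    exact Real.sqrt_le_sqrt hu.2

noncomputable def Ps (s : ℝ) : H := (ps_memLp s).toLp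

lemma Ps_ae (s : ℝ) : Ps s =ᵐ[volume] ps s := MemLp.coeFn_toLp _

/-- the functional `f ↦ ∫_0^s √u f(u) du` -/
noncomputable def Ls (s : ℝ) (f : H) : ℂ := inner ℂ (Ps s) f

lemma Ls_integrand (s : ℝ) (f : H) : (fun u => inner ℂ (Ps s u) (f u)) =ᵐ[volume]
    (Ioc (0 : ℝ) s).indicator (fun u => ((Real.sqrt u : ℝ) : ℂ) * f u) := by
  filter_upwards [Ps_ae s] with u hu
  rw [hu]
  unfold ps
  by_cases h : u ∈ Ioc (0 : ℝ) s
  · rw [indicator_of_mem h, indicator_of_mem h]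
    simp [RCLike.inner_apply, mul_comm]
  · rw [indicator_of_notMem h, indicator_of_notMem h]
    simp

lemma int_on (s : ℝ) (f : H) :
    IntegrableOn (fun u => ((Real.sqrt u : ℝ) : ℂ) * f u) (Ioc 0 s) := by
  rw [← integrable_indicator_iff measurableSet_Ioc]
  exact (L2.integrable_inner (Ps s) f).congr (Ls_integrand s f)

lemma int_q (f : H) {a b : ℝ} (ha : 0 ≤ a) (hab : a ≤ b) :
    IntervalIntegrable (fun u => ((Real.sqrt u : ℝ) : ℂ) * f u) volume a b := by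
  rw [intervalIntegrable_iff_integrableOn_Ioc_of_le hab]
  exact (int_on b f).mono_set (Ioc_subset_Ioc_left ha)

lemma Ls_eq {s : ℝ} (hs : 0 ≤ s) (f : H) :
    Ls s f = ∫ u in (0 : ℝ)..s, ((Real.sqrt u : ℝ) : ℂ) * f u := by
  unfold Ls
  rw [L2.inner_def, integral_congr_ae (Ls_integrand s f), integral_indicator measurableSet_Ioc,
    intervalIntegral.integral_of_le hs]

lemma Ls_T {s h : ℝ} (hh : 0 < h) (hs : h < s) (f : H) :
    Ls s (T h f) = ∫ u in (0 : ℝ)..(s - h), ((Real.sqrt u : ℝ) : ℂ) * f u := by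
  rw [Ls_eq (hh.trans hs).le]
  have i1 : ∫ u in (0 : ℝ)..s, ((Real.sqrt u : ℝ) : ℂ) * (T h f) u =
      ∫ u in (0 : ℝ)..s, ((Real.sqrt u : ℝ) : ℂ) * sh h f u := by
    apply intervalIntegral.integral_congr_ae
    filter_upwards [T_ae hh.le f] with u hu _
    rw [hu]
  have hi : IntervalIntegrable (fun u => ((Real.sqrt u : ℝ) : ℂ) * sh h f u) volume 0 s := by
    refine (int_q (T h f) le_rfl (hh.trans hs).le).congr_ae ?_
    exact ae_restrict_of_ae ((T_ae hh.le f).mono fun u hu => by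
      simp only
      rw [hu])
  rw [i1]
  have hi1 : IntervalIntegrable (fun u => ((Real.sqrt u : ℝ) : ℂ) * sh h f u) volume 0 h :=
    hi.mono_set (by rw [uIcc_of_le hh.le, uIcc_of_le (hh.trans hs).le]; exact Icc_subset_Icc_right hs.le)
  have hi2 : IntervalIntegrable (fun u => ((Real.sqrt u : ℝ) : ℂ) * sh h f u) volume h s :=
    hi.mono_set (by rw [uIcc_of_le hs.le, uIcc_of_le (hh.trans hs).le]; exact Icc_subset_Icc_left hh.le)
  rw [← intervalIntegral.integral_add_adjacent_intervals hi1 hi2]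
  have z1 : ∫ u in (0 : ℝ)..h, ((Real.sqrt u : ℝ) : ℂ) * sh h f u = 0 := by
    rw [intervalIntegral.integral_of_le hh.le]
    rw [setIntegral_congr_fun (g := fun _ => (0 : ℂ)) measurableSet_Ioc]
    · simp
    · intro u hu
      simp only [sh]
      rw [if_neg (not_le.2 hu.1), if_neg (not_lt.2 hu.2), mul_zero]
  rw [z1, zero_add]
  have z2 : ∫ u in h..s, ((Real.sqrt u : ℝ) : ℂ) * sh h f u =
      ∫ u in h..s, ((Real.sqrt (u - h) : ℝ) : ℂ) * f (u - h) := by
    rw [intervalIntegral.integral_of_le hs.le, intervalIntegral.integral_of_le hs.le]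
    apply setIntegral_congr_fun measurableSet_Ioc
    intro u hu
    have hu0 : 0 < u := hh.trans hu.1
    simp only [sh]
    rw [if_neg (not_le.2 hu0), if_pos hu.1, ← mul_assoc, ← Complex.ofReal_mul,
      ← Real.sqrt_mul hu0.le, mul_div_cancel₀ _ hu0.ne']
  rw [z2, intervalIntegral.integral_comp_sub_right
    (fun u => ((Real.sqrt u : ℝ) : ℂ) * f u) h, sub_self]

variable {x y : H}

/-- the hypothesis: `(x, y)` is in the graph of the generator -/
def Gr (x y : H) : Prop :=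
  Tendsto (fun h : ℝ => ((h : ℂ)⁻¹) • (T h x - x)) (𝓝[>] 0) (𝓝 y)

lemma gr_neg (hg : Gr x y) : ∀ᵐ s : ℝ, s ≤ 0 → y s = 0 := by
  have h1 : ∀ h : ℝ, 0 < h → ∫⁻ s in Iic (0 : ℝ), ‖y s‖ₑ ^ 2 ≤
      ‖((h : ℂ)⁻¹) • (T h x - x) - y‖ₑ ^ 2 := by
    intro h hh
    have e1 : ‖((h : ℂ)⁻¹) • (T h x - x) - y‖ₑ ^ 2 =
        ∫⁻ s, ‖(((h : ℂ)⁻¹) • (T h x - x) - y : H) s‖ₑ ^ 2 := by
      rw [Lp.enorm_def, eLp_sq]
    rw [e1]
    refine le_trans ?_ (setLIntegral_le_lintegral (Iic (0 : ℝ)) _)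
    rw [← lintegral_indicator measurableSet_Iic, ← lintegral_indicator measurableSet_Iic]
    apply lintegral_mono_ae
    filter_upwards [Lp.coeFn_sub (((h : ℂ)⁻¹) • (T h x - x)) y,
      Lp.coeFn_smul ((h : ℂ)⁻¹) (T h x - x), Lp.coeFn_sub (T h x) x, T_ae hh.le x]
      with s h1 h2 h3 h4
    by_cases hs : s ∈ Iic (0 : ℝ)
    · rw [indicator_of_mem hs, indicator_of_mem hs, h1, Pi.sub_apply, h2, Pi.smul_apply, h3,
        Pi.sub_apply, h4]
      have : sh h x s = x s := by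
        unfold sh
        rw [if_pos (show s ≤ 0 from hs)]
      rw [this, sub_self, smul_zero, zero_sub, enorm_neg]
    · rw [indicator_of_notMem hs, indicator_of_notMem hs]
  have h2 : Tendsto (fun h : ℝ => ‖((h : ℂ)⁻¹) • (T h x - x) - y‖ₑ ^ 2) (𝓝[>] 0) (𝓝 0) := by
    have h3 := (hg.sub_const y).enorm
    rw [sub_self, enorm_zero] at h3
    have h4 := ((ENNReal.continuous_pow 2).tendsto 0).comp h3
    rw [zero_pow two_ne_zero] at h4
    exact h4
  have h5 : ∫⁻ s in Iic (0 : ℝ), ‖y s‖ₑ ^ 2 ≤ 0 := by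
    refine ge_of_tendsto h2 ?_
    filter_upwards [self_mem_nhdsWithin] with h hh
    exact h1 h hh
  have h6 := (lintegral_eq_zero_iff (((Lp.stronglyMeasurable y).measurable.enorm).pow_const 2)).1
    (le_antisymm h5 zero_le)
  rw [EventuallyEq, ae_restrict_iff' measurableSet_Iic] at h6
  filter_upwards [h6] with s hs h0
  have := hs h0
  simpa using this

lemma gr_pos_aux (hg : Gr x y) {s : ℝ} (hs : 0 < s) {v : ℂ}
    (hd : HasDerivAt (fun s => ∫ u in (0 : ℝ)..s, ((Real.sqrt u : ℝ) : ℂ) * x u) v s) :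
    v = -∫ u in (0 : ℝ)..s, ((Real.sqrt u : ℝ) : ℂ) * y u := by
  have h1 : Tendsto (fun h : ℝ => Ls s (((h : ℂ)⁻¹) • (T h x - x))) (𝓝[>] 0) (𝓝 (Ls s y)) :=
    ((continuous_const.inner continuous_id).tendsto y).comp hg
  rw [Ls_eq hs.le] at h1
  have h2 : Tendsto (fun h : ℝ => Ls s (((h : ℂ)⁻¹) • (T h x - x))) (𝓝[>] 0) (𝓝 (-v)) := by
    have h3 : HasDerivAt (fun h : ℝ => ∫ u in (0 : ℝ)..(s - h), ((Real.sqrt u : ℝ) : ℂ) * x u)
        (-v) 0 := by
      have h4 : HasDerivAt (fun h : ℝ => s - h) (-1) 0 := by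
        simpa using (hasDerivAt_id (0 : ℝ)).const_sub s
      have h5 := HasDerivAt.scomp (𝕜 := ℝ) (g₁ := fun s => ∫ u in (0 : ℝ)..s,
        ((Real.sqrt u : ℝ) : ℂ) * x u) (h := fun h : ℝ => s - h) 0 (by simpa using hd) h4
      rw [neg_one_smul] at h5
      exact h5
    have h6 := h3.tendsto_slope_zero_right
    refine h6.congr' ?_
    have h7 : ∀ᶠ h in 𝓝[>] (0 : ℝ), h < s := nhdsWithin_le_nhds (Iio_mem_nhds hs)
    filter_upwards [self_mem_nhdsWithin, h7] with h hh hhs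
    have hh0 : 0 < h := hh
    unfold Ls
    rw [inner_smul_right, inner_sub_right]
    have e1 : inner ℂ (Ps s) (T h x) = Ls s (T h x) := rfl
    have e2 : inner ℂ (Ps s) x = Ls s x := rfl
    rw [e1, e2, Ls_T hh0 hhs, Ls_eq hs.le]
    simp only [zero_add, sub_zero]
    rw [Complex.real_smul, Complex.ofReal_inv]
  have h8 := tendsto_nhds_unique h1 h2
  rw [h8, neg_neg]

lemma gr_pos (hg : Gr x y) : ∀ᵐ s : ℝ, 0 < s → ((Real.sqrt s : ℝ) : ℂ) * x s =
    -∫ u in (0 : ℝ)..s, ((Real.sqrt u : ℝ) : ℂ) * y u := by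
  have h1 : ∀ n : ℕ, ∀ᵐ s : ℝ, s ∈ uIcc (0 : ℝ) n →
      ((Real.sqrt s : ℝ) : ℂ) * x s = -∫ u in (0 : ℝ)..s, ((Real.sqrt u : ℝ) : ℂ) * y u ∨ s ≤ 0 := by
    intro n
    have h2 := (int_q x le_rfl (Nat.cast_nonneg n)).ae_hasDerivAt_integral
    filter_upwards [h2] with s hs hm
    by_cases h0 : s ≤ 0
    · exact Or.inr h0
    · left
      exact gr_pos_aux hg (not_le.1 h0) (hs hm 0 left_mem_uIcc)
  rw [← ae_all_iff] at h1
  filter_upwards [h1] with s hs h0
  obtain ⟨n, hn⟩ := exists_nat_ge s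
  rcases hs n (by rw [uIcc_of_le (Nat.cast_nonneg n)]; exact ⟨h0.le, hn⟩) with h | h
  · exact h
  · exact absurd h0 (not_lt.2 h)

end Pool.Agent.N242.CS
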