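import Pool.Agent.N242.CS.Gen

set_option autoImplicit false

namespace Pool.Agent.N242.CS

open MeasureTheory Set Filter Complex
open scoped ENNReal Topology

lemma normsq (f : H) : ‖f‖ ^ 2 = ∫ s, ‖f s‖ ^ 2 := by
  have h1 : (inner ℂ f f : ℂ) = ((‖f‖ ^ 2 : ℝ) : ℂ) := by
    rw [inner_self_eq_norm_sq_to_K]
    push_cast
    rfl
  rw [L2.inner_def] at h1
  have h2 : ∀ s, (inner ℂ (f s) (f s) : ℂ) = ((‖f s‖ ^ 2 : ℝ) : ℂ) := by
    intro s
    rw [inner_self_eq_norm_sq_to_K]
    push_cast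
    rfl
  simp_rw [h2] at h1
  rw [integral_complex_ofReal] at h1
  exact_mod_cast h1.symm

lemma int_sq (f : H) : Integrable (fun s => ‖f s‖ ^ 2) := (Lp.memLp f).integrable_norm_pow two_ne_zero

/-- `A + iB = ∫_0^s √u y(u) du` -/
noncomputable def q1 (y : H) (u : ℝ) : ℝ := Real.sqrt u * (y u).re
noncomputable def q2 (y : H) (u : ℝ) : ℝ := Real.sqrt u * (y u).im
noncomputable def A (y : H) (s : ℝ) : ℝ := ∫ u in (0 : ℝ)..s, q1 y u
noncomputable def B (y : H) (s : ℝ) : ℝ := ∫ u in (0 : ℝ)..s, q2 y u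

lemma q1_int (y : H) {a b : ℝ} (ha : 0 ≤ a) (hab : a ≤ b) : IntervalIntegrable (q1 y) volume a b := by
  have h := int_q y ha hab
  rw [intervalIntegrable_iff] at h ⊢
  refine h.re.congr (ae_of_all _ fun u => ?_)
  simp [q1]

lemma q2_int (y : H) {a b : ℝ} (ha : 0 ≤ a) (hab : a ≤ b) : IntervalIntegrable (q2 y) volume a b := by
  have h := int_q y ha hab
  rw [intervalIntegrable_iff] at h ⊢
  refine h.im.congr (ae_of_all _ fun u => ?_)
  simp [q2]

lemma AB_eq (y : H) {s : ℝ} (hs : 0 ≤ s) :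
    ∫ u in (0 : ℝ)..s, ((Real.sqrt u : ℝ) : ℂ) * y u = (A y s : ℂ) + (B y s : ℂ) * I := by
  have h := int_q y le_rfl hs
  apply Complex.ext
  · have h1 := Complex.reCLM.intervalIntegral_comp_comm h
    simp only [Complex.reCLM_apply] at h1
    rw [← h1]
    simp [A, q1]
  · have h1 := Complex.imCLM.intervalIntegral_comp_comm h
    simp only [Complex.imCLM_apply] at h1
    rw [← h1]
    simp [B, q2]

/-- the multiplier function -/
noncomputable def P (ν : ℝ) (y : H) (s : ℝ) : ℝ := (1 / s ^ 2 - ν / s) * (A y s * A y s + B y s * B y s)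

lemma phi_deriv (ν : ℝ) {s : ℝ} (hs : 0 < s) :
    HasDerivAt (fun s : ℝ => 1 / s ^ 2 - ν / s) (-2 / s ^ 3 + ν / s ^ 2) s := by
  have h1 : HasDerivAt (fun s : ℝ => s ^ 2) (2 * s) s := by simpa using hasDerivAt_pow 2 s
  have h2 := ((hasDerivAt_const s (1 : ℝ)).div h1 (by positivity)).sub
    ((hasDerivAt_const s ν).div (hasDerivAt_id s) hs.ne')
  refine h2.congr_deriv ?_
  simp only [id]
  field_simp
  ring

lemma P_ac (ν : ℝ) (y : H) {e M : ℝ} (he : 0 < e) (hM : e ≤ M) :
    AbsolutelyContinuousOnInterval (P ν y) e M := by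
  have hsub : uIcc e M ⊆ uIcc 0 M := by
    rw [uIcc_of_le hM, uIcc_of_le (he.le.trans hM)]
    exact Icc_subset_Icc_left he.le
  have h1 : AbsolutelyContinuousOnInterval (A y) e M :=
    ((q1_int y le_rfl (he.le.trans hM)).absolutelyContinuousOnInterval_intervalIntegral
      left_mem_uIcc).mono hsub
  have h2 : AbsolutelyContinuousOnInterval (B y) e M :=
    ((q2_int y le_rfl (he.le.trans hM)).absolutelyContinuousOnInterval_intervalIntegral
      left_mem_uIcc).mono hsub
  have h3 : AbsolutelyContinuousOnInterval (fun s : ℝ => 1 / s ^ 2 - ν / s) e M := by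
    apply ContDiffOn.absolutelyContinuousOnInterval
    rw [uIcc_of_le hM]
    have hne : ∀ s ∈ Icc e M, s ≠ 0 := fun s hs => (he.trans_le hs.1).ne'
    refine ContDiffOn.sub (ContDiffOn.div contDiffOn_const (contDiffOn_id.pow 2) ?_)
      (ContDiffOn.div contDiffOn_const contDiffOn_id hne)
    intro s hs
    exact pow_ne_zero 2 (hne s hs)
  exact h3.mul ((h1.mul h1).add (h2.mul h2))

lemma alg {a b q r ν ω t : ℝ} :
    ((-2 * t ^ 3 + ν * t ^ 2) * (a * a + b * b) + (t ^ 2 - ν * t) * (2 * a * q + 2 * b * r)) +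
      (3 / 4) * ν ^ 2 * ((a ^ 2 + b ^ 2) * t) ≤
      ((-ν * a - ω * b + q) ^ 2 + (-ν * b + ω * a + r) ^ 2) * t ∨ t < 0 := by
  by_cases ht : t < 0
  · exact Or.inr ht
  left
  push Not at ht
  have key : 0 ≤ t * (((-ν * a - ω * b + q) - (t - ν) * a) ^ 2 +
      ((-ν * b + ω * a + r) - (t - ν) * b) ^ 2 + (t - ν / 2) ^ 2 * (a ^ 2 + b ^ 2)) := by
    positivity
  nlinarith [key]

lemma core {x y : H} (hg : Gr x y) (μ : ℂ) {e M : ℝ} (he : 0 < e) (hM : e ≤ M) :
    P (-μ.re) y M - P (-μ.re) y e + (3 / 4) * μ.re ^ 2 * ∫ s in e..M, ‖x s‖ ^ 2 ≤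
      ∫ s in e..M, ‖(μ • x - y : H) s‖ ^ 2 := by
  have hac := P_ac (-μ.re) y he hM
  rw [← hac.integral_deriv_eq_sub, ← intervalIntegral.integral_const_mul,
    ← intervalIntegral.integral_add hac.intervalIntegrable_deriv
      (((int_sq x).intervalIntegrable).const_mul _)]
  apply intervalIntegral.integral_mono_ae_restrict hM
  · exact hac.intervalIntegrable_deriv.add (((int_sq x).intervalIntegrable).const_mul _)
  · exact (int_sq _).intervalIntegrable
  · have hM0 : 0 ≤ M := he.le.trans hM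
    have d1 := (q1_int y le_rfl hM0).ae_hasDerivAt_integral
    have d2 := (q2_int y le_rfl hM0).ae_hasDerivAt_integral
    rw [EventuallyLE, ae_restrict_iff' measurableSet_Icc]
    filter_upwards [d1, d2, gr_pos hg, Lp.coeFn_sub (μ • x) y, Lp.coeFn_smul μ x]
      with s h1 h2 h3 h4 h5 hs
    have hs0 : 0 < s := he.trans_le hs.1
    have hm : s ∈ uIcc 0 M := by
      rw [uIcc_of_le hM0]
      exact ⟨hs0.le, hs.2⟩
    have hA : HasDerivAt (A y) (q1 y s) s := h1 hm 0 left_mem_uIcc
    have hB : HasDerivAt (B y) (q2 y s) s := h2 hm 0 left_mem_uIcc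
    have hP := (phi_deriv (-μ.re) hs0).mul ((hA.mul hA).add (hB.mul hB))
    have hP2 : deriv (P (-μ.re) y) s = _ := hP.deriv
    rw [hP2, h4, Pi.sub_apply, h5, Pi.smul_apply, smul_eq_mul]
    have h6 := h3 hs0
    rw [AB_eq y hs0.le] at h6
    set r := Real.sqrt s with hr
    have hr0 : 0 < r := Real.sqrt_pos.2 hs0
    have hrs : r * r = s := Real.mul_self_sqrt hs0.le
    have hq1 : q1 y s = r * (y s).re := rfl
    have hq2 : q2 y s = r * (y s).im := rfl
    have hx1 : r * (x s).re = -A y s := by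
      have := congrArg Complex.re h6
      simpa using this
    have hx2 : r * (x s).im = -B y s := by
      have := congrArg Complex.im h6
      simpa using this
    have n1 : ‖x s‖ ^ 2 = (x s).re ^ 2 + (x s).im ^ 2 := by
      rw [← Complex.normSq_eq_norm_sq, Complex.normSq_apply]
      ring
    have n2 : ‖μ * x s - y s‖ ^ 2 = (μ.re * (x s).re - μ.im * (x s).im - (y s).re) ^ 2 +
        (μ.re * (x s).im + μ.im * (x s).re - (y s).im) ^ 2 := by
      rw [← Complex.normSq_eq_norm_sq, Complex.normSq_apply]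
      simp
      ring
    have al := alg (a := A y s) (b := B y s) (q := q1 y s) (r := q2 y s) (ν := -μ.re) (ω := μ.im)
      (t := 1 / s)
    rcases al with al | al
    swap
    · exact absurd al (not_lt.2 (by positivity))
    have e1 : ‖x s‖ ^ 2 = (A y s ^ 2 + B y s ^ 2) * (1 / s) := by
      rw [n1]
      have : A y s ^ 2 + B y s ^ 2 = r * r * ((x s).re ^ 2 + (x s).im ^ 2) := by
        have a1 : A y s = -(r * (x s).re) := by linarith
        have a2 : B y s = -(r * (x s).im) := by linarith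
        rw [a1, a2]
        ring
      rw [this, hrs]
      field_simp
    have e2 : ‖μ * x s - y s‖ ^ 2 = ((-(-μ.re) * A y s - μ.im * B y s + q1 y s) ^ 2 +
        (-(-μ.re) * B y s + μ.im * A y s + q2 y s) ^ 2) * (1 / s) := by
      rw [n2]
      have : (-(-μ.re) * A y s - μ.im * B y s + q1 y s) ^ 2 +
        (-(-μ.re) * B y s + μ.im * A y s + q2 y s) ^ 2 =
          r * r * ((μ.re * (x s).re - μ.im * (x s).im - (y s).re) ^ 2 +
        (μ.re * (x s).im + μ.im * (x s).re - (y s).im) ^ 2) := by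
        have a1 : A y s = -(r * (x s).re) := by linarith
        have a2 : B y s = -(r * (x s).im) := by linarith
        rw [a1, a2, hq1, hq2]
        ring
      rw [this, hrs]
      field_simp
    rw [e1, e2]
    refine le_trans (le_of_eq ?_) al
    simp only [Pi.mul_apply, Pi.add_apply]
    field_simp
    ring

end Pool.Agent.N242.CS
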